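import Pool.Agent.Y150.CD.Stm

/-!
# Project CD of helper150: `S_pro`, `S_loc`
-/

set_option autoImplicit false

namespace Pool.Agent.Y145.CD

open Filter Topology Pool.Agent.Y150.CD

instance isGal : IsGalois ℚ Qb := by
  have : IsAlgClosure ℚ Qb := ⟨inferInstance, AlgebraicClosure.isAlgebraic ℚ⟩
  infer_instance

instance compG : CompactSpace G := inferInstanceAs (CompactSpace Gal(Qb/ℚ))

/-- a homomorphism on inertia which vanishes where `t` vanishes respects the relation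
`t g = lam * t g'` -/
theorem pro_aux {P : Ideal O} (hmul : ∀ g h, Inert P g → Inert P h → Inert P (g * h))
    (hinv : ∀ g, Inert P g → Inert P g⁻¹) (hcl : IsClosed {g : G | Inert P g})
    (t : G → ℤ_[2]) (tc : Continuous t)
    (tadd : ∀ g g', Inert P g → Inert P g' → t (g * g') = t g + t g')
    (h : G → ℚ_[2]) (hc : Continuous h)
    (hadd : ∀ g g', Inert P g → Inert P g' → h (g * g') = h g + h g')
    (hz : ∀ g, Inert P g → t g = 0 → h g = 0)
    (g g' : G) (hg : Inert P g) (hg' : Inert P g') (lam : ℤ_[2]) (hl : t g = lam * t g') :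
    h g = (lam : ℚ_[2]) * h g' := by
  have hone : Inert P (1 : G) := by
    have := hmul g g⁻¹ hg (hinv g hg)
    rwa [mul_inv_cancel] at this
  have t1 : t 1 = 0 := by
    have := tadd 1 1 hone hone
    rw [mul_one] at this
    exact left_eq_add.1 this
  have h1 : h 1 = 0 := by
    have := hadd 1 1 hone hone
    rw [mul_one] at this
    exact left_eq_add.1 this
  have hpow : ∀ n : ℕ, Inert P (g' ^ n) ∧ t (g' ^ n) = n * t g' ∧ h (g' ^ n) = n * h g' := by
    intro n
    induction n with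
    | zero => simpa [t1, h1] using hone
    | succ n ih =>
      obtain ⟨i1, i2, i3⟩ := ih
      rw [pow_succ]
      refine ⟨hmul _ _ i1 hg', ?_, ?_⟩
      · rw [tadd _ _ i1 hg', i2]; push_cast; ring
      · rw [hadd _ _ i1 hg', i3]; push_cast; ring
  have tinv : ∀ x, Inert P x → t x⁻¹ = -t x := by
    intro x hx
    have := tadd x x⁻¹ hx (hinv x hx)
    rw [mul_inv_cancel, t1] at this
    linear_combination -this
  have hhinv : ∀ x, Inert P x → h x⁻¹ = -h x := by
    intro x hx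
    have := hadd x x⁻¹ hx (hinv x hx)
    rw [mul_inv_cancel, h1] at this
    linear_combination -this
  let u : ℕ → G := fun n => g * (g' ^ (lam.appr n))⁻¹
  have hu : ∀ n, Inert P (u n) := fun n => hmul _ _ hg (hinv _ (hpow _).1)
  have hlim : Tendsto (fun n => ((lam.appr n : ℕ) : ℤ_[2])) atTop (𝓝 lam) := by
    rw [tendsto_iff_norm_sub_tendsto_zero]
    have h2 : Tendsto (fun n : ℕ => ((2 : ℝ)⁻¹) ^ n) atTop (𝓝 0) :=
      tendsto_pow_atTop_nhds_zero_of_lt_one (by norm_num) (by norm_num)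
    refine squeeze_zero (fun _ => norm_nonneg _) (fun n => ?_) h2
    have h3 := PadicInt.appr_spec n lam
    rw [← PadicInt.norm_le_pow_iff_mem_span_pow] at h3
    rw [norm_sub_rev]
    refine h3.trans (le_of_eq ?_)
    rw [zpow_neg, zpow_natCast, inv_pow]
    norm_num
  have htu : Tendsto (fun n => t (u n)) atTop (𝓝 0) := by
    have h2 : ∀ n, t (u n) = lam * t g' - ((lam.appr n : ℕ) : ℤ_[2]) * t g' := by
      intro n
      simp only [u]
      rw [tadd _ _ hg (hinv _ (hpow _).1), tinv _ (hpow _).1, (hpow _).2.1, hl]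
      ring
    simp only [h2]
    have := (hlim.mul_const (t g')).const_sub (lam * t g')
    rwa [sub_self] at this
  have hhu : Tendsto (fun n => h (u n)) atTop (𝓝 (h g - (lam : ℚ_[2]) * h g')) := by
    have h2 : ∀ n, h (u n) = h g - (((lam.appr n : ℕ) : ℤ_[2]) : ℚ_[2]) * h g' := by
      intro n
      simp only [u]
      rw [hadd _ _ hg (hinv _ (hpow _).1), hhinv _ (hpow _).1, (hpow _).2.2]
      push_cast
      ring
    simp only [h2]
    have h3 : Tendsto (fun n => (((lam.appr n : ℕ) : ℤ_[2]) : ℚ_[2])) atTop (𝓝 (lam : ℚ_[2])) :=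
      (continuous_subtype_val.tendsto lam).comp hlim
    exact (h3.mul_const (h g')).const_sub (h g)
  have hcomp : IsCompact {g : G | Inert P g} := hcl.isCompact
  obtain ⟨x, hx, hxc⟩ := hcomp.exists_mapClusterPt (f := atTop) (u := u)
    (le_principal_iff.2 (mem_map.2 (univ_mem' hu)))
  have hx' : Inert P x := hx
  have e1 : t x = 0 := by
    have h4 : MapClusterPt (t x) atTop (t ∘ u) := hxc.continuousAt_comp tc.continuousAt
    have h5 : (𝓝 (t x) ⊓ 𝓝 (0 : ℤ_[2])).NeBot := h4.neBot.mono (inf_le_inf_left _ htu)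
    exact eq_of_nhds_neBot h5
  have e2 : h x = h g - (lam : ℚ_[2]) * h g' := by
    have h4 : MapClusterPt (h x) atTop (h ∘ u) := hxc.continuousAt_comp hc.continuousAt
    have h5 : (𝓝 (h x) ⊓ 𝓝 (h g - (lam : ℚ_[2]) * h g')).NeBot :=
      h4.neBot.mono (inf_le_inf_left _ hhu)
    exact eq_of_nhds_neBot h5
  have e3 := hz x hx' e1
  rw [e3] at e2
  exact (sub_eq_zero.1 e2.symm)

theorem pro : S_pro := by
  intro hfrob hchf htam hval Z p K hp hp2 P hP h hc hadd g g' hg hg'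
  obtain ⟨-, hf⟩ := hfrob p hp
  obtain ⟨-, hmul, hinv, -, hcl⟩ := hf P hP
  obtain ⟨hchi, -⟩ := hchf p hp hp2 P hP
  have tadd : ∀ g g', Inert P g → Inert P g' → K.t (g * g') = K.t g + K.t g' := by
    intro g g' hg _
    rw [K.co, hchi g hg]
    simp
  have hz : ∀ g, Inert P g → K.t g = 0 → h g = 0 :=
    fun g hg h0 => htam hval Z p K hp hp2 P hP h hc hadd g hg h0
  rcases ValuationRing.dvd_total (K.t g) (K.t g') with ⟨lam, hl⟩ | ⟨lam, hl⟩
  · have := pro_aux hmul hinv hcl K.t K.cont tadd h hc hadd hz g' g hg' hg lam (by rw [hl]; ring)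
    rw [this, hl]
    push_cast
    ring
  · have := pro_aux hmul hinv hcl K.t K.cont tadd h hc hadd hz g g' hg hg' lam (by rw [hl]; ring)
    rw [this, hl]
    push_cast
    ring

theorem norm_eq_one_of_not_dvd {x : ℤ_[2]} (hx : ¬ (2 : ℤ_[2]) ∣ x) : ‖x‖ = 1 := by
  have h1 := (PadicInt.norm_lt_one_iff_dvd x).not.2 (by push_cast; exact hx)
  exact le_antisymm (PadicInt.norm_le_one x) (not_lt.1 h1)

theorem loc : S_loc := by
  intro hfrob hchf hkin hkfr htau hval htam hpro Z p hp hinj K L a ha hai F hF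
  obtain ⟨hFc, hFm⟩ := hF
  obtain ⟨C, hC⟩ := isCompact_univ.exists_bound_of_continuousOn (f := F) hFc.continuousOn
  obtain ⟨i, hi⟩ := exists_nat_gt C
  obtain ⟨hpp, hp3, hpd, hps⟩ := hp i
  have hp2 : p i ≠ 2 := by omega
  obtain ⟨⟨P, hP⟩, hf⟩ := hfrob (p i) hpp
  obtain ⟨⟨φ, hφ⟩, hmul, hinv, hconj, hcl⟩ := hf P hP
  obtain ⟨hchi, hchφ0⟩ := hchf (p i) hpp hp2 P hP
  have hchφ := hchφ0 φ hφ
  obtain ⟨τ, hτ, hτ2⟩ := htau Z (p i) (K i) hpp hp2 P hP
  have hb0 : ∀ g, Inert P g → L.t g = 0 := by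
    apply hkin Z (p i) 3 L hpp hp2 P hP
    intro hd
    have := Nat.le_of_dvd (by norm_num) hd
    omega
  have hK0 : ∀ j, j ≠ i → ∀ g, Inert P g → (K j).t g = 0 := by
    intro j hj
    apply hkin Z (p i) (p j) (K j) hpp hp2 P hP
    intro hd
    exact hj (hinj ((Nat.prime_dvd_prime_iff_eq hpp (hp j).1).1 hd)).symm
  have haI : ∀ g, Inert P g → a g = 2 ^ i * (K i).t g := fun g hg =>
    hai i g (fun j hj => hK0 j hj g hg)
  have hch1 : ∀ g, Inert P g → ch g = 1 := by
    intro g hg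
    unfold ch
    rw [hchi g hg]
    simp
  have hchφ' : ch φ = p i := by
    unfold ch
    rw [hchφ]
    simp
  have hFl : ∀ g h, Inert P g → F (g * h) = F g + F h := by
    intro g h hg
    rw [hFm, hch1 g hg, hb0 g hg]
    simp
  set g' := φ * τ * φ⁻¹ with hg'
  have hg'I : Inert P g' := hconj φ τ hφ hτ
  have hcomm : g' * φ = φ * τ := by rw [hg']; group
  have e1 : F g' = (p i : ℚ_[2]) ^ 2 * F τ + p i * ((L.t φ : ℤ_[2]) : ℚ_[2]) * ((a τ : ℤ_[2]) : ℚ_[2]) := by
    have h1 := hFl g' φ hg'I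
    rw [hcomm, hFm, hchφ'] at h1
    linear_combination -h1
  have e2 : (K i).t g' = (p i : ℤ_[2]) * (K i).t τ := by
    have h1 := (K i).co g' φ
    rw [hcomm, (K i).co, hchi g' hg'I, hchφ] at h1
    simp only [Units.val_one, one_mul] at h1
    linear_combination -h1
  have hFadd : ∀ g g', Inert P g → Inert P g' → F (g * g') = F g + F g' :=
    fun g g' hg _ => hFl g g' hg
  have e3 := hpro hfrob hchf htam hval Z (p i) (K i) hpp hp2 P hP F hFc hFadd τ g' hτ hg'I
  rw [e2] at e3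
  have ht0 : (((K i).t τ : ℤ_[2]) : ℚ_[2]) ≠ 0 := by
    intro h0
    apply hτ2
    have : (K i).t τ = 0 := PadicInt.ext (by simpa using h0)
    rw [this]
    exact dvd_zero _
  have e4 : F g' = (p i : ℚ_[2]) * F τ := by
    apply mul_left_cancel₀ ht0
    rw [e3]
    push_cast
    ring
  have hpi0 : (p i : ℚ_[2]) ≠ 0 := by
    exact_mod_cast hpp.ne_zero
  have e5 : F τ * (1 - (p i : ℚ_[2])) = ((L.t φ : ℤ_[2]) : ℚ_[2]) * ((a τ : ℤ_[2]) : ℚ_[2]) := by
    apply mul_left_cancel₀ hpi0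
    rw [e4] at e1
    linear_combination e1
  -- norms
  have n1 : ‖((L.t φ : ℤ_[2]) : ℚ_[2])‖ = 1 := by
    rw [PadicInt.norm_def.symm]
    apply norm_eq_one_of_not_dvd
    exact hkfr Z (p i) 3 L hpp hp2 P hP (by push_cast; exact hps) φ hφ
  have n2 : ‖((a τ : ℤ_[2]) : ℚ_[2])‖ = (1 / 2 : ℝ) ^ i := by
    rw [PadicInt.norm_def.symm, haI τ hτ, norm_mul, norm_pow]
    have h2 : ‖(2 : ℤ_[2])‖ = 1 / 2 := by
      have := PadicInt.norm_p (p := 2)
      push_cast at this
      rw [this]; norm_num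
    rw [h2, norm_eq_one_of_not_dvd hτ2, mul_one]
  have n3 : ‖(1 - (p i : ℚ_[2]))‖ ≤ (1 / 2 : ℝ) ^ (2 * i + 2) := by
    obtain ⟨c, hc⟩ := hpd
    have h1 : (p i : ℚ_[2]) - 1 = (2 : ℚ_[2]) ^ (2 * i + 2) * (c : ℚ_[2]) := by
      have : p i = 2 ^ (2 * i + 2) * c + 1 := by omega
      rw [this]
      push_cast
      ring
    rw [norm_sub_rev, h1, norm_mul, norm_pow]
    have h2 : ‖(2 : ℚ_[2])‖ = 1 / 2 := by
      have := Padic.norm_p (p := 2)
      push_cast at this
      rw [this]; norm_num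
    have h3 : ‖(c : ℚ_[2])‖ ≤ 1 := by
      have := Padic.norm_int_le_one (p := 2) (c : ℤ)
      simpa using this
    rw [h2]
    exact mul_le_of_le_one_right (by positivity) h3
  have n4 : ‖F τ‖ * ‖(1 - (p i : ℚ_[2]))‖ = (1 / 2 : ℝ) ^ i := by
    rw [← norm_mul, e5, norm_mul, n1, n2, one_mul]
  have n5 : (1 / 2 : ℝ) ^ i ≤ C * (1 / 2 : ℝ) ^ (2 * i + 2) := by
    rw [← n4]
    exact mul_le_mul (hC τ (Set.mem_univ _)) n3 (norm_nonneg _)
      ((norm_nonneg _).trans (hC τ (Set.mem_univ _)))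
  have n6 : (2 : ℝ) ^ (i + 2) ≤ C := by
    have h1 : (1 / 2 : ℝ) ^ i = 2 ^ (i + 2) * (1 / 2) ^ (2 * i + 2) := by
      have h2 : (2 : ℝ) ^ (i + 2) * (1 / 2) ^ (i + 2) = 1 := by
        rw [← mul_pow]; norm_num
      have h3 : 2 * i + 2 = (i + 2) + i := by ring
      rw [h3, pow_add (1 / 2 : ℝ) (i + 2) i, ← mul_assoc, h2, one_mul]
    rw [h1] at n5
    exact le_of_mul_le_mul_right n5 (by positivity)
  have n7 : (i : ℝ) < 2 ^ (i + 2) := by
    have : i < 2 ^ (i + 2) := lt_trans (Nat.lt_two_pow_self) (Nat.pow_lt_pow_right (by norm_num) (by omega))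
    exact_mod_cast this
  linarith

end Pool.Agent.Y145.CD
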