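import Pool.Agent.Y145.CD.Pro

/-!
# Project CD of helper150: `S_tam` (tame inertia)
-/

set_option autoImplicit false

namespace Pool.Agent.Y145.CD

open Filter Topology Pool.Agent.Y150.CD

theorem act_coe (g : G) (x : O) : ((act g x : O) : Qb) = g (x : Qb) := rfl

theorem two_notMem {p : ℕ} (hp : p.Prime) (hp2 : p ≠ 2) {P : Ideal O} (hP : Over p P) :
    (2 : O) ∉ P := by
  intro h2
  obtain ⟨k, hk⟩ := hp.odd_of_ne_two hp2
  have h1 : (1 : O) = (p : O) - k * 2 := by
    rw [hk]; push_cast; ring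
  exact hP.1.ne_top ((Ideal.eq_top_iff_one _).2 (h1 ▸ P.sub_mem hP.2 (P.mul_mem_left _ h2)))

theorem tam' : S_frob → S_chf → S_tam := by
  intro hfrob hchf hval Z p K hp hp2 P hP h hc hadd g₀ hg₀ hg₀t
  obtain ⟨-, hf⟩ := hfrob p hp
  obtain ⟨-, hmul, hinv, -, hcl⟩ := hf P hP
  obtain ⟨hchi, -⟩ := hchf p hp hp2 P hP
  have tadd : ∀ g g', Inert P g → Inert P g' → K.t (g * g') = K.t g + K.t g' := by
    intro g g' hg _
    rw [K.co, hchi g hg]
    simp
  by_contra hne
  have hone : Inert P (1 : G) := by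
    have := hmul g₀ g₀⁻¹ hg₀ (hinv g₀ hg₀)
    rwa [mul_inv_cancel] at this
  have t1 : K.t 1 = 0 := by
    have := tadd 1 1 hone hone
    rw [mul_one] at this
    exact left_eq_add.1 this
  have h1 : h 1 = 0 := by
    have := hadd 1 1 hone hone
    rw [mul_one] at this
    exact left_eq_add.1 this
  have tinv : ∀ x, Inert P x → K.t x⁻¹ = -K.t x := by
    intro x hx
    have := tadd x x⁻¹ hx (hinv x hx)
    rw [mul_inv_cancel, t1] at this
    linear_combination -this
  have hhinv : ∀ x, Inert P x → h x⁻¹ = -h x := by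
    intro x hx
    have := hadd x x⁻¹ hx (hinv x hx)
    rw [mul_inv_cancel, h1] at this
    linear_combination -this
  -- the compact group `N`
  set N : Set G := {g | Inert P g ∧ K.t g = 0} with hN
  have hNcl : IsClosed N := hcl.inter (isClosed_singleton.preimage K.cont (t := {0}))
  have hNc : IsCompact N := hNcl.isCompact
  obtain ⟨n1, hn1, hmax⟩ := hNc.exists_isMaxOn ⟨g₀, hg₀, hg₀t⟩ (f := fun g => ‖h g‖) (hc.norm.continuousOn)
  have hM : 0 < ‖h n1‖ := lt_of_lt_of_le (norm_pos_iff.2 hne) (hmax ⟨hg₀, hg₀t⟩)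
  have hn1I : Inert P n1 := hn1.1
  have hn1t : K.t n1 = 0 := hn1.2
  -- the subgroup `H`
  let H : ClosedSubgroup G :=
    { carrier := {g | (Inert P g ∧ K.t g = 0) ∧ ‖h g‖ < ‖h n1‖}
      mul_mem' := by
        rintro a b ⟨⟨ha1, ha2⟩, ha3⟩ ⟨⟨hb1, hb2⟩, hb3⟩
        refine ⟨⟨hmul a b ha1 hb1, by rw [tadd a b ha1 hb1, ha2, hb2, add_zero]⟩, ?_⟩
        rw [hadd a b ha1 hb1]
        exact lt_of_le_of_lt (Padic.nonarchimedean _ _) (max_lt ha3 hb3)
      one_mem' := ⟨⟨hone, t1⟩, by rw [h1, norm_zero]; exact hM⟩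
      inv_mem' := by
        rintro a ⟨⟨ha1, ha2⟩, ha3⟩
        refine ⟨⟨hinv a ha1, by rw [tinv a ha1, ha2, neg_zero]⟩, ?_⟩
        rw [hhinv a ha1, norm_neg]
        exact ha3
      isClosed' := by
        have hb : IsClosed (Metric.ball (0 : ℚ_[2]) ‖h n1‖) := IsUltrametricDist.isClosed_ball _ _
        have := hNcl.inter (hb.preimage hc)
        convert this using 1
        ext g
        simp [hN] }
  have hHmem : ∀ g : G, g ∈ H.toSubgroup ↔ (Inert P g ∧ K.t g = 0) ∧ ‖h g‖ < ‖h n1‖ := fun g => Iff.rfl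
  have hn1H : n1 ∉ H.toSubgroup := by
    rw [hHmem]
    intro h2
    exact lt_irrefl _ h2.2
  have hn2H : n1 * n1 ∈ H.toSubgroup := by
    rw [hHmem]
    refine ⟨⟨hmul _ _ hn1I hn1I, by rw [tadd _ _ hn1I hn1I, hn1t, add_zero]⟩, ?_⟩
    rw [hadd _ _ hn1I hn1I, ← two_mul, norm_mul]
    have h2 : ‖(2 : ℚ_[2])‖ = 1 / 2 := by
      have := Padic.norm_p (p := 2)
      push_cast at this
      rw [this]; norm_num
    rw [h2]
    linarith
  have hgal := InfiniteGalois.fixingSubgroup_fixedField (k := ℚ) (K := Qb) H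
  have hx : ∃ x ∈ IntermediateField.fixedField H.toSubgroup, n1 x ≠ x := by
    by_contra hno
    push Not at hno
    apply hn1H
    rw [← hgal]
    rw [IntermediateField.mem_fixingSubgroup_iff]
    exact hno
  obtain ⟨x, hxf, hxn⟩ := hx
  have hxx : n1 (n1 x) = x := by
    have := (IntermediateField.mem_fixedField_iff H.toSubgroup x).1 hxf (n1 * n1) hn2H
    simpa using this
  set c := x - n1 x with hcdef
  have hc0 : c ≠ 0 := sub_ne_zero.2 (Ne.symm hxn)
  have hnc : n1 c = -c := by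
    rw [hcdef, map_sub, hxx]; ring
  obtain ⟨e, v, α, β, he, hα, hβ, heq⟩ := hval p hp P hP c hc0
  obtain ⟨k, w, hw, hkw⟩ := Nat.exists_eq_two_pow_mul_odd he.ne'
  have hr : ∀ n, K.r n ^ (2 ^ n) = p := by
    intro n
    induction n with
    | zero => simpa using K.r0
    | succ n ih => rw [pow_succ', pow_mul, K.rs, ih]
  have hrk0 : K.r k ≠ 0 := by
    intro h0
    have := hr k
    rw [h0, zero_pow (by positivity)] at this
    exact (Nat.cast_ne_zero.2 hp.ne_zero : (p : Qb) ≠ 0) this.symm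
  have hnr : n1 (K.r k) = K.r k := by
    have := K.act n1 k 0 (by rw [hn1t]; simp)
    simpa using this
  set γ := c ^ w / K.r k ^ v with hγ
  have hγk : γ ^ (2 ^ k) * (β : Qb) = α := by
    have hp0 : (p : Qb) ≠ 0 := Nat.cast_ne_zero.2 hp.ne_zero
    have h3 : (K.r k ^ v) ^ (2 ^ k) = (p : Qb) ^ v := by
      rw [← hr k, ← zpow_natCast, ← zpow_natCast, ← zpow_mul, ← zpow_mul, mul_comm]
    have h4 : (c ^ w) ^ (2 ^ k) = c ^ e := by
      rw [← pow_mul, hkw, mul_comm]
    rw [hγ, div_pow, h3, h4, div_mul_eq_mul_div, heq]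
    field_simp
  have hγn : n1 γ = -γ := by
    rw [hγ, map_div₀, map_pow, map_zpow₀, hnc, hnr, hw.neg_pow, neg_div]
  -- `y`
  have hyO : IsIntegral ℤ (γ * (β : Qb)) := by
    apply IsIntegral.of_pow (n := 2 ^ k) (by positivity)
    have h5 : (γ * (β : Qb)) ^ (2 ^ k) = ((α * β ^ (2 ^ k - 1) : O) : Qb) := by
      have h6 : (β : Qb) ^ (2 ^ k) = (β : Qb) * (β : Qb) ^ (2 ^ k - 1) := by
        rw [← pow_succ']
        congr 1
        have : 0 < 2 ^ k := by positivity
        omega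
      rw [mul_pow, h6, ← mul_assoc, hγk]
      push_cast
      rfl
    rw [h5]
    exact (α * β ^ (2 ^ k - 1) : O).2
  set y : O := ⟨γ * (β : Qb), hyO⟩ with hy
  have hyk : y ^ (2 ^ k) = α * β ^ (2 ^ k - 1) := by
    apply Subtype.ext
    push_cast
    have h6 : (β : Qb) ^ (2 ^ k) = (β : Qb) * (β : Qb) ^ (2 ^ k - 1) := by
      rw [← pow_succ']
      congr 1
      have : 0 < 2 ^ k := by positivity
      omega
    show (γ * (β : Qb)) ^ (2 ^ k) = _
    rw [mul_pow, h6, ← mul_assoc, hγk]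
  have hPprime := hP.1
  have hyP : y ∉ P := by
    intro hyP
    have h7 : y ^ (2 ^ k) ∈ P := P.pow_mem_of_mem hyP _ (by positivity)
    rw [hyk] at h7
    rcases hPprime.mem_or_mem h7 with h8 | h8
    · exact hα h8
    · exact hβ (hPprime.mem_of_pow_mem _ h8)
  have hrel : act n1 y * β = -(y * act n1 β) := by
    apply Subtype.ext
    push_cast
    rw [act_coe, act_coe]
    show n1 (γ * (β : Qb)) * (β : Qb) = -((γ * (β : Qb)) * n1 (β : Qb))
    rw [map_mul, hγn]
    ring
  have hfin : (2 : O) * (y * β) ∈ P := by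
    have i1 := hn1I y
    have i2 := hn1I β
    have : (2 : O) * (y * β) = -((act n1 y - y) * β) - y * (act n1 β - β) +
        (act n1 y * β + y * act n1 β) := by ring
    rw [this, hrel]
    have h8 : -(y * act n1 β) + y * act n1 β = 0 := by ring
    rw [h8, add_zero]
    exact P.sub_mem (P.neg_mem (P.mul_mem_right _ i1)) (P.mul_mem_left _ i2)
  rcases hPprime.mem_or_mem hfin with h9 | h9
  · exact two_notMem hp hp2 hP h9
  · rcases hPprime.mem_or_mem h9 with h10 | h10
    · exact hyP h10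
    · exact hβ h10

end Pool.Agent.Y145.CD
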